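import Mathlib

set_option autoImplicit false

namespace Pool.Agent.H51FG

open FreeGroup (of)

variable {X : Type*} {p : ℕ} (φ : X → ZMod p)

/-- total shift -/
noncomputable def Ph : FreeGroup X →* Multiplicative (ZMod p) :=
  FreeGroup.lift (fun x => Multiplicative.ofAdd (φ x))

/-- the shift as an element of `ZMod p` -/
noncomputable def sh (w : FreeGroup X) : ZMod p := Multiplicative.toAdd (Ph φ w)

@[simp] theorem sh_one : sh φ 1 = 0 := by simp [sh]
@[simp] theorem sh_mul (u v : FreeGroup X) : sh φ (u * v) = sh φ u + sh φ v := by simp [sh]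
@[simp] theorem sh_inv (u : FreeGroup X) : sh φ u⁻¹ = -sh φ u := by simp [sh]
@[simp] theorem sh_of (x : X) : sh φ (of x) = φ x := by simp [sh, Ph]

section act
variable {Q : Type*} [Group Q] (g : X → ZMod p → Q)

/-- action of a generator -/
def gen (x : X) : Equiv.Perm (ZMod p × Q) where
  toFun a := (a.1 - φ x, g x (a.1 - φ x) * a.2)
  invFun a := (a.1 + φ x, (g x a.1)⁻¹ * a.2)
  left_inv a := by
    ext1
    · simp
    · simp
  right_inv a := by
    ext1
    · simp
    · simp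

/-- the action on `ZMod p × Q` -/
noncomputable def act : FreeGroup X →* Equiv.Perm (ZMod p × Q) := FreeGroup.lift (gen φ g)

/-- the cocycle, indexed by the end point -/
noncomputable def D (w : FreeGroup X) (j : ZMod p) : Q := (act φ g w (j, 1)).2

theorem act_apply (w : FreeGroup X) : ∀ (j : ZMod p) (h : Q),
    act φ g w (j, h) = (j - sh φ w, D φ g w j * h) := by
  induction w using FreeGroup.induction_on with
  | C1 => intro j h; simp [D]
  | of x => intro j h; simp [D, act, gen]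
  | inv_of x _ =>
    intro j h
    have e : ∀ a : ZMod p × Q, act φ g (of x)⁻¹ a = (a.1 + φ x, (g x a.1)⁻¹ * a.2) := by
      intro a
      rw [map_inv]
      simp only [act, FreeGroup.lift_apply_of]
      rfl
    rw [D, e, e]
    simp
  | mul u v hu hv =>
    intro j h
    rw [D, map_mul, Equiv.Perm.mul_apply, Equiv.Perm.mul_apply, hv, hv, hu, hu]
    simp [mul_assoc, sub_sub, add_comm]

theorem D_mul (u v : FreeGroup X) (j : ZMod p) :
    D φ g (u * v) j = D φ g u (j - sh φ v) * D φ g v j := by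
  rw [D, map_mul, Equiv.Perm.mul_apply, act_apply, act_apply]
  simp

theorem D_one (j : ZMod p) : D φ g 1 j = 1 := by simp [D]

theorem D_of (x : X) (j : ZMod p) : D φ g (of x) j = g x (j - φ x) := by
  simp [D, act, gen]

theorem D_inv (u : FreeGroup X) (j : ZMod p) :
    D φ g u⁻¹ j = (D φ g u (j + sh φ u))⁻¹ := by
  have h := D_mul φ g u u⁻¹ j
  rw [mul_inv_cancel, D_one, sh_inv, sub_neg_eq_add] at h
  exact (inv_eq_of_mul_eq_one_right h.symm).symm

theorem D_map {Q' : Type*} [Group Q'] (f : Q →* Q') (w : FreeGroup X) :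
    ∀ j, D φ (fun x i => f (g x i)) w j = f (D φ g w j) := by
  induction w using FreeGroup.induction_on with
  | C1 => intro j; rw [D_one, D_one, map_one]
  | of x => intro j; rw [D_of, D_of]
  | inv_of x h => intro j; rw [D_inv, D_inv, h, map_inv]
  | mul u v hu hv => intro j; rw [D_mul, D_mul, hu, hv, map_mul]

theorem D_conj (w u : FreeGroup X) (hu : sh φ u = 0) (j : ZMod p) :
    D φ g (w * u * w⁻¹) (j - sh φ w) = D φ g w j * D φ g u j * (D φ g w j)⁻¹ := by
  rw [D_mul, D_mul, D_inv, sh_inv, hu]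
  simp

end act

section tree
variable [NeZero p] (x0 : X)

open Classical in
/-- generators: tree edges are trivial -/
noncomputable def cg (x : X) (i : ZMod p) : FreeGroup (X × ZMod p) :=
  if x = x0 ∧ i ≠ -1 then 1 else of (x, i)

/-- transversal -/
def tr (i : ZMod p) : FreeGroup X := (of x0) ^ i.val

/-- the map back -/
noncomputable def rho : FreeGroup (X × ZMod p) →* FreeGroup X :=
  FreeGroup.lift (fun a => tr x0 a.2 * of a.1 * (tr x0 (a.2 + φ a.1))⁻¹)

theorem tr_succ (hp : 1 < p) {i : ZMod p} (hi : i ≠ -1) : tr x0 (i + 1) = tr x0 i * of x0 := by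
  have : Fact (1 < p) := ⟨hp⟩
  have h1 : i.val + 1 < p := by
    have h2 := i.val_lt
    rcases Nat.lt_or_ge (i.val + 1) p with h | h
    · exact h
    · exfalso
      apply hi
      have h3 : i.val + 1 = p := by omega
      have h4 : ((i.val + 1 : ℕ) : ZMod p) = 0 := by rw [h3]; exact ZMod.natCast_self p
      push_cast at h4
      rw [ZMod.natCast_zmod_val] at h4
      exact eq_neg_of_add_eq_zero_left h4
  have h2 : (i + 1).val = i.val + 1 := by
    rw [ZMod.val_add_of_lt]
    · rw [ZMod.val_one]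
    · rw [ZMod.val_one]; exact h1
  rw [tr, tr, h2, pow_succ]

theorem rho_D (hp : 1 < p) (h0 : φ x0 = 1) (w : FreeGroup X) : ∀ j,
    rho φ x0 (D φ (cg x0) w j) = tr x0 (j - sh φ w) * w * (tr x0 j)⁻¹ := by
  induction w using FreeGroup.induction_on with
  | C1 => intro j; rw [D_one, map_one, sh_one, sub_zero]; group
  | of x =>
    intro j
    rw [D_of, cg, sh_of]
    split_ifs with h
    · obtain ⟨rfl, h2⟩ := h
      rw [map_one]
      rw [h0] at h2 ⊢
      have h3 := tr_succ x hp h2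
      rw [sub_add_cancel] at h3
      rw [h3]
      group
    · simp only [rho, FreeGroup.lift_apply_of]
      rw [sub_add_cancel]
  | inv_of x h =>
    intro j
    rw [D_inv, map_inv, h, sh_inv]
    rw [add_sub_cancel_right, sub_neg_eq_add]
    group
  | mul u v hu hv =>
    intro j
    rw [D_mul, map_mul, hu, hv, sh_mul]
    rw [show j - (sh φ u + sh φ v) = j - sh φ v - sh φ u by ring]
    group

open Classical in
/-- length of the reduced word -/
noncomputable def nrm {Z : Type*} (w : FreeGroup Z) : ℕ := w.norm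

theorem nrm_mul {Z : Type*} (u v : FreeGroup Z) : nrm (u * v) ≤ nrm u + nrm v := by
  classical
  exact FreeGroup.norm_mul_le u v

theorem nrm_one {Z : Type*} : nrm (1 : FreeGroup Z) = 0 := by
  classical
  exact FreeGroup.norm_one

theorem nrm_inv {Z : Type*} (u : FreeGroup Z) : nrm u⁻¹ = nrm u := by
  classical
  exact FreeGroup.norm_inv_eq

theorem nrm_of {Z : Type*} (z : Z) : nrm (of z) = 1 := by
  classical
  exact FreeGroup.norm_of z

theorem nrm_cg (x : X) (i : ZMod p) : nrm (cg x0 x i) ≤ 1 := by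
  rw [cg]
  split_ifs
  · rw [nrm_one]; exact Nat.zero_le 1
  · rw [nrm_of]

theorem mk_cons (x : X) (b : Bool) (L : List (X × Bool)) :
    (FreeGroup.mk ((x, b) :: L) : FreeGroup X) = FreeGroup.mk [(x, b)] * FreeGroup.mk L := by
  rw [FreeGroup.mul_mk]
  rfl

theorem mk_true (x : X) : (FreeGroup.mk [(x, true)] : FreeGroup X) = of x := rfl

theorem mk_false (x : X) : (FreeGroup.mk [(x, false)] : FreeGroup X) = (of x)⁻¹ := rfl

theorem nrm_D_single (a : X × Bool) (j : ZMod p) :
    nrm (D φ (cg x0) (FreeGroup.mk [a]) j) ≤ 1 := by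
  obtain ⟨x, b⟩ := a
  cases b
  · rw [mk_false, D_inv, nrm_inv, D_of]
    exact nrm_cg x0 x _
  · rw [mk_true, D_of]
    exact nrm_cg x0 x _

theorem nrm_D_mk (L : List (X × Bool)) : ∀ j : ZMod p,
    nrm (D φ (cg x0) (FreeGroup.mk L) j) ≤ L.length := by
  induction L with
  | nil => intro j; rw [← FreeGroup.one_eq_mk, D_one, nrm_one]; exact Nat.zero_le _
  | cons a L ih =>
    intro j
    obtain ⟨x, b⟩ := a
    rw [mk_cons, D_mul, List.length_cons]
    have h1 := nrm_mul (D φ (cg x0) (FreeGroup.mk [(x, b)]) (j - sh φ (FreeGroup.mk L)))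
      (D φ (cg x0) (FreeGroup.mk L) j)
    have h2 := nrm_D_single φ x0 (x, b) (j - sh φ (FreeGroup.mk L))
    have h3 := ih j
    omega

theorem nrm_D_lt (hp : 2 < p) (h0 : φ x0 = 1) (L : List (X × Bool)) (b : Bool)
    (hb : (x0, b) ∈ L) : ∃ j : ZMod p, nrm (D φ (cg x0) (FreeGroup.mk L) j) < L.length := by
  have : Fact (1 < p) := ⟨by omega⟩
  have : Fact (2 < p) := ⟨hp⟩
  obtain ⟨L1, L2, rfl⟩ := List.append_of_mem hb
  refine ⟨1 + sh φ (FreeGroup.mk L2), ?_⟩
  have e : (FreeGroup.mk (L1 ++ (x0, b) :: L2) : FreeGroup X)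
      = FreeGroup.mk L1 * (FreeGroup.mk [(x0, b)] * FreeGroup.mk L2) := by
    rw [← mk_cons, FreeGroup.mul_mk]
  have h10 : (1 : ZMod p) ≠ 0 := one_ne_zero
  have h01 : (0 : ZMod p) ≠ -1 := fun h => h10 (neg_eq_zero.1 h.symm)
  have h1m : (1 : ZMod p) ≠ -1 := fun h => ZMod.neg_one_ne_one h.symm
  have key : D φ (cg x0) (FreeGroup.mk [(x0, b)]) (1 : ZMod p) = 1 := by
    cases b
    · rw [mk_false, D_inv, D_of, sh_of, h0, add_sub_cancel_right, cg, if_pos ⟨rfl, h1m⟩, inv_one]
    · rw [mk_true, D_of, h0, sub_self, cg, if_pos ⟨rfl, h01⟩]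
  rw [e, D_mul, D_mul, add_sub_cancel_right, key, one_mul]
  have h1 := nrm_mul (D φ (cg x0) (FreeGroup.mk L1)
    (1 + sh φ (FreeGroup.mk L2) - sh φ (FreeGroup.mk [(x0, b)] * FreeGroup.mk L2)))
    (D φ (cg x0) (FreeGroup.mk L2) (1 + sh φ (FreeGroup.mk L2)))
  have h2 := nrm_D_mk φ x0 L1
    (1 + sh φ (FreeGroup.mk L2) - sh φ (FreeGroup.mk [(x0, b)] * FreeGroup.mk L2))
  have h3 := nrm_D_mk φ x0 L2 (1 + sh φ (FreeGroup.mk L2))
  rw [List.length_append, List.length_cons]
  omega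

theorem nrm_D_le (w : FreeGroup X) (j : ZMod p) : nrm (D φ (cg x0) w j) ≤ nrm w := by
  classical
  have h := nrm_D_mk φ x0 w.toWord j
  rw [FreeGroup.mk_toWord] at h
  refine h.trans (le_of_eq ?_)
  show w.toWord.length = nrm w
  unfold nrm FreeGroup.norm
  congr!

open Classical in
theorem exists_nrm_D_lt (hp : 2 < p) (h0 : φ x0 = 1) (w : FreeGroup X) (b : Bool)
    (hb : (x0, b) ∈ w.toWord) : ∃ j : ZMod p, nrm (D φ (cg x0) w j) < nrm w := by
  obtain ⟨j, hj⟩ := nrm_D_lt φ x0 hp h0 w.toWord b hb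
  rw [FreeGroup.mk_toWord] at hj
  exact ⟨j, hj⟩

end tree

/-- separation in a finite quotient -/
def Sep (u v : FreeGroup X) : Prop :=
  ∃ (Q : Type) (_ : Group Q) (_ : Finite Q) (ψ : FreeGroup X →* Q),
    ∀ g : FreeGroup X, ψ (g * u * g⁻¹) ≠ ψ v

theorem Sep.symm {u v : FreeGroup X} (h : Sep u v) : Sep v u := by
  obtain ⟨Q, i1, i2, ψ, h⟩ := h
  refine ⟨Q, i1, i2, ψ, fun g hg => h g⁻¹ ?_⟩
  rw [map_mul, map_mul, ← hg, ← map_mul, ← map_mul]
  congr 1
  group

open Classical in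
/-- the induction step -/
theorem step {X : Type*} {p : ℕ} [NeZero p] (φ : X → ZMod p) (x0 : X) (hp : 2 < p)
    (h0 : φ x0 = 1) {u v : FreeGroup X} (hu : sh φ u = 0) (hv : sh φ v = 0) (b : Bool)
    (hb : (x0, b) ∈ u.toWord) (hnc : ¬ IsConj u v)
    (ih : ∀ u' v' : FreeGroup (X × ZMod p), nrm u' + nrm v' < nrm u + nrm v →
      ¬ IsConj u' v' → Sep u' v') : Sep u v := by
  obtain ⟨j0, hj0⟩ := exists_nrm_D_lt φ x0 hp h0 u b hb
  have hc : ∀ j, ¬ IsConj (D φ (cg x0) u j0) (D φ (cg x0) v j) := by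
    intro j h
    apply hnc
    have h1 := (rho φ x0).map_isConj h
    rw [rho_D φ x0 (by omega) h0, rho_D φ x0 (by omega) h0, hu, hv, sub_zero, sub_zero] at h1
    have h2 : IsConj u (tr x0 j0 * u * (tr x0 j0)⁻¹) := isConj_iff.2 ⟨_, rfl⟩
    have h3 : IsConj v (tr x0 j * v * (tr x0 j)⁻¹) := isConj_iff.2 ⟨_, rfl⟩
    exact (h2.trans h1).trans h3.symm
  have hs : ∀ j, Sep (D φ (cg x0) u j0) (D φ (cg x0) v j) := fun j =>
    ih _ _ (by have := nrm_D_le φ x0 v j; omega) (hc j)
  choose Q hG hF ψ hψ using hs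
  refine ⟨(Equiv.Perm (ZMod p × (∀ j, Q j))), inferInstance, inferInstance,
    act φ (fun x i => (MonoidHom.pi ψ) (cg x0 x i)), ?_⟩
  intro g hg
  set j := j0 - sh φ g with hj
  have h1 := congrArg (fun e : Equiv.Perm (ZMod p × (∀ j, Q j)) => (e (j, 1)).2) hg
  have h2 : D φ (fun x i => (MonoidHom.pi ψ) (cg x0 x i)) (g * u * g⁻¹) j
      = D φ (fun x i => (MonoidHom.pi ψ) (cg x0 x i)) v j := h1
  rw [D_map, D_map, hj, D_conj φ (cg x0) g u hu j0, ← hj] at h2
  have h3 := congrFun h2 j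
  exact hψ j _ h3

end Pool.Agent.H51FG
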