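import Pool.Agent.H51FG.Act

set_option autoImplicit false

namespace Pool.Agent.H51FG

open FreeGroup (of)

universe u

variable {X : Type u}

open Classical in
/-- exponent sum -/
noncomputable def es (x : X) : FreeGroup X →* Multiplicative ℤ :=
  FreeGroup.lift (fun y => Multiplicative.ofAdd (if y = x then 1 else 0))

/-- the exponent sum as an integer -/
noncomputable def ez (x : X) (w : FreeGroup X) : ℤ := Multiplicative.toAdd (es x w)

@[simp] theorem ez_one (x : X) : ez x 1 = 0 := by simp [ez]
@[simp] theorem ez_mul (x : X) (u v : FreeGroup X) : ez x (u * v) = ez x u + ez x v := by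
  simp [ez]
@[simp] theorem ez_inv (x : X) (u : FreeGroup X) : ez x u⁻¹ = -ez x u := by simp [ez]
open Classical in
@[simp] theorem ez_of (x y : X) : ez x (of y) = if y = x then 1 else 0 := by simp [ez, es]

open Classical in
/-- shift for a combination of two letters -/
theorem sh_comb {p : ℕ} (x y : X) (t : ZMod p) (w : FreeGroup X) :
    sh (fun z => (if z = x then 1 else 0) + (if z = y then t else 0)) w
      = (ez x w : ZMod p) + t * (ez y w : ZMod p) := by
  induction w using FreeGroup.induction_on with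
  | C1 => simp
  | of z =>
    simp only [sh_of, ez_of]
    split_ifs <;> simp
  | inv_of z h => rw [sh_inv, h, ez_inv, ez_inv]; push_cast; ring
  | mul u v hu hv => rw [sh_mul, hu, hv, ez_mul, ez_mul]; push_cast; ring

theorem pow_of_letters (x : X) (L : List (X × Bool)) (h : ∀ a ∈ L, a.1 = x) :
    (FreeGroup.mk L : FreeGroup X) = of x ^ (ez x (FreeGroup.mk L)) := by
  induction L with
  | nil => rw [← FreeGroup.one_eq_mk]; simp
  | cons a L ih =>
    obtain ⟨y, b⟩ := a
    have hy : y = x := h (y, b) (by simp)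
    subst hy
    have h1 := ih (fun a ha => h a (by simp [ha]))
    rw [mk_cons, ez_mul, zpow_add, ← h1]
    congr 1
    cases b
    · rw [mk_false, ez_inv, ez_of, if_pos rfl, zpow_neg, zpow_one]
    · rw [mk_true, ez_of, if_pos rfl, zpow_one]

open Classical in
theorem eq_pow (x : X) (w : FreeGroup X) (h : ∀ y b, (y, b) ∈ w.toWord → y = x) :
    w = of x ^ (ez x w) := by
  have h1 := pow_of_letters x w.toWord (fun a ha => h a.1 a.2 ha)
  rwa [FreeGroup.mk_toWord] at h1

/-- the letter occurs -/
def Occ (x : X) (w : FreeGroup X) : Prop := ∃ b, (x, b) ∈ (by classical exact w.toWord)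

/-- separation by an abelian quotient -/
theorem sep_of_ez {u v : FreeGroup X} (x : X) (h : ez x u ≠ ez x v) : Sep u v := by
  set m : ℕ := (ez x u - ez x v).natAbs + 1 with hm
  have hm0 : NeZero m := ⟨by omega⟩
  refine ⟨Multiplicative (ZMod m), inferInstance, inferInstance,
    (AddMonoidHom.toMultiplicative (Int.castAddHom (ZMod m))).comp (es x), ?_⟩
  intro g hg
  have h1 : ((ez x (g * u * g⁻¹) : ℤ) : ZMod m) = ((ez x v : ℤ) : ZMod m) := hg
  rw [ez_mul, ez_mul, ez_inv, add_neg_cancel_comm] at h1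
  have h2 : ((ez x u - ez x v : ℤ) : ZMod m) = 0 := by
    push_cast
    rw [h1, sub_self]
  rw [ZMod.intCast_zmod_eq_zero_iff_dvd] at h2
  have h3 : ez x u - ez x v = 0 := by
    apply Int.eq_zero_of_abs_lt_dvd h2
    rw [hm]
    push_cast
    rw [Int.abs_eq_natAbs]
    omega
  exact h (sub_eq_zero.1 h3)

/-- choice of the modulus -/
theorem choice {u v : FreeGroup X} (hne : u ≠ v) (he : ∀ x, ez x u = ez x v) :
    ∃ (p : ℕ) (_ : NeZero p) (φ : X → ZMod p) (x0 : X), 2 < p ∧ φ x0 = 1 ∧ sh φ u = 0 ∧
      sh φ v = 0 ∧ (Occ x0 u ∨ Occ x0 v) := by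
  classical
  by_cases hA : ∃ x, (Occ x u ∨ Occ x v) ∧ ez x u = 0
  · obtain ⟨x, hx, h0⟩ := hA
    refine ⟨3, inferInstance, fun z => (if z = x then 1 else 0) + (if z = x then 0 else 0), x,
      by norm_num, by simp, ?_, ?_, hx⟩
    · rw [sh_comb, h0]; simp
    · rw [sh_comb, ← he, h0]; simp
  by_cases hB : ∃ x y, (Occ x u ∨ Occ x v) ∧ x ≠ y ∧ ez y u ≠ 0
  · obtain ⟨x, y, hx, hxy, hy⟩ := hB
    obtain ⟨p, hp1, hp⟩ := Nat.exists_infinite_primes ((ez y u).natAbs + 3)
    have hF : Fact p.Prime := ⟨hp⟩
    have hne0 : ((ez y u : ℤ) : ZMod p) ≠ 0 := by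
      intro h
      rw [ZMod.intCast_zmod_eq_zero_iff_dvd] at h
      apply hy
      apply Int.eq_zero_of_abs_lt_dvd h
      rw [Int.abs_eq_natAbs]
      omega
    refine ⟨p, inferInstance, fun z => (if z = x then 1 else 0) +
      (if z = y then -((ez x u : ℤ) : ZMod p) * ((ez y u : ℤ) : ZMod p)⁻¹ else 0), x,
      by omega, by simp [hxy], ?_, ?_, hx⟩
    · rw [sh_comb]
      field_simp
      ring
    · rw [sh_comb, ← he, ← he]
      field_simp
      ring
  · exfalso
    apply hne
    push Not at hA hB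
    by_cases hocc : ∃ x, Occ x u ∨ Occ x v
    · obtain ⟨x, hx⟩ := hocc
      have key : ∀ y, (Occ y u ∨ Occ y v) → y = x := by
        intro y hy
        by_contra hyx
        exact hA y hy (hB x y hx (fun h => hyx h.symm))
      have h1 := eq_pow x u (fun y b hb => key y (Or.inl ⟨b, by convert hb⟩))
      have h2 := eq_pow x v (fun y b hb => key y (Or.inr ⟨b, by convert hb⟩))
      rw [h1, h2, he]
    · push Not at hocc
      have h1 : ∀ w : FreeGroup X, (∀ x, ¬ Occ x w) → w = 1 := by
        intro w hw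
        rw [← FreeGroup.toWord_eq_nil_iff]
        rw [List.eq_nil_iff_forall_not_mem]
        rintro ⟨x, b⟩ hb
        exact hw x ⟨b, by convert hb⟩
      rw [h1 u (fun x => (hocc x).1), h1 v (fun x => (hocc x).2)]

theorem sep_aux (n : ℕ) : ∀ {X : Type u} (u v : FreeGroup X), nrm u + nrm v ≤ n →
    ¬ IsConj u v → Sep u v := by
  classical
  induction n using Nat.strong_induction_on with
  | _ n ih =>
    intro X u v hn hnc
    by_cases he : ∀ x, ez x u = ez x v
    · have hne : u ≠ v := by
        rintro rfl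
        exact hnc (IsConj.refl _)
      obtain ⟨p, hp0, φ, x0, hp, h0, hu, hv, hocc⟩ := choice hne he
      rcases hocc with ⟨b, hb⟩ | ⟨b, hb⟩
      · refine step φ x0 hp h0 hu hv b (by convert hb) hnc (fun u' v' hlt hnc' => ?_)
        exact ih (nrm u' + nrm v') (by omega) u' v' le_rfl hnc'
      · refine Sep.symm (step φ x0 hp h0 hv hu b (by convert hb) (fun h => hnc h.symm)
          (fun u' v' hlt hnc' => ?_))
        exact ih (nrm u' + nrm v') (by omega) u' v' le_rfl hnc'
    · push Not at he
      obtain ⟨x, hx⟩ := he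
      exact sep_of_ez x hx

/-- free groups are conjugacy separable -/
theorem free_sep {X : Type u} (u v : FreeGroup X) (h : ¬ IsConj u v) : Sep u v :=
  sep_aux _ u v le_rfl h

end Pool.Agent.H51FG
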